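import Pool.Agent.MP_a2e0a9_al.Mg.H74_Am

namespace Pool.Agent.Results.MP_a2e0a9_al.Continuum

open Pool.Agent.MP_a2e0a9_al

universe u

/-- The power set of the natural numbers embeds, as an ordered set, in the varieties of
representable lattice-ordered groups having the integers as an amalgamation base. -/
theorem result : ∃ Φ : Set ℕ → Set (Term × Term),
    (∀ A, (∀ G : LGrp.{u}, Sat (Φ A) G → Representable G) ∧ IsAmalgBase.{u} (Φ A) intLGrp) ∧
    ∀ A B, A ⊆ B ↔ ∀ G : LGrp.{u}, Sat (Φ A) G → Sat (Φ B) G :=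
  ⟨H74.Φ, fun A => ⟨fun _ => H74.representable, H74.amalgBase A⟩, fun _ _ => H74.subset_iff⟩

end Pool.Agent.Results.MP_a2e0a9_al.Continuum
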