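import Pool.Agent.MP_a2e0a9_al.Mg.Main

namespace Pool.Agent.Results.MP_a2e0a9_al.NonRepresentable

open Pool.Agent.MP_a2e0a9_al

universe u

/-- For a proper variety of lattice-ordered groups with a non-representable member, the integers
are an amalgamation base exactly when the variety is the variety of normal-valued groups. -/
theorem result (S : Set (Term × Term))
    (hnr : ∃ G : LGrp.{u}, Sat S G ∧ ¬ Representable G) (hpr : ∃ G : LGrp.{u}, ¬ Sat S G) :
    IsAmalgBase.{u} S intLGrp ↔ ∀ G : LGrp.{u}, Sat S G ↔ NormalValued G :=
  classification S hnr hpr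

end Pool.Agent.Results.MP_a2e0a9_al.NonRepresentable
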