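import Pool.Agent.MP_a2e0a9_al.Mg.H1_Main

namespace Pool.Agent.Results.MP_a2e0a9_al.Undecidable

open Pool.Agent.MP_a2e0a9_al

universe u

/-- No algorithm decides, given a finite list of identities that defines a variety of
representable lattice-ordered groups, whether the integers are an amalgamation base of it. -/
theorem result : ¬ ∃ f : List (ℕ × ℕ) →. Bool, Partrec f ∧ ∀ L : List (Term × Term),
    (∀ G : LGrp.{u}, Sat {p | p ∈ L} G → Representable G) →
      ∃ b ∈ f (L.map fun p => (p.1.code, p.2.code)),
        (b = true ↔ IsAmalgBase.{u} {p | p ∈ L} intLGrp) :=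
  H1.undecidable

end Pool.Agent.Results.MP_a2e0a9_al.Undecidable
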